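import Mathlib
import Pool.Agent.V11306.Co2
import Pool.Agent.V11306.Ke4

/-!
# The coefficients of `C(q) = (q;q)_∞ T_o(q)` are unbounded above and below (MP_91ed4c_nt, Q1)

`T_o(q) = ∑_{m ≥ 0} q^(2m) (-q;q)_(2m) / (q;q²)_(m+1)`, `C(q) = (q;q)_∞ T_o(q) = ∑ c(n) q^n`.
We prove: for every `M` there are `n`, `n'` with `c(n) > M` and `c(n') < -M`.
-/

set_option linter.all false

namespace Pool.Agent.Results.MP_91ed4c_nt.Unbounded

open Finset PowerSeries

/-- the `m`-th summand `q^(2m) (-q;q)_(2m) / (q;q²)_(m+1)` of `T_o(q)`. -/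
noncomputable def summand (m : ℕ) : PowerSeries ℤ :=
  X ^ (2 * m) * (∏ k ∈ range (2 * m), (1 + X ^ (k + 1))) *
    invOfUnit (∏ i ∈ range (m + 1), (1 - X ^ (2 * i + 1))) 1

/-- `T_o(q)`; only the summands with `2m ≤ n` contribute to the coefficient of `q^n`. -/
noncomputable def To : PowerSeries ℤ := PowerSeries.mk fun n => ∑ m ∈ range (n + 1), coeff n (summand m)

/-- `(q;q)_∞`: its coefficient of `q^n` is that of the finite product of the first `n` factors. -/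
noncomputable def qq : PowerSeries ℤ := PowerSeries.mk fun n => coeff n (∏ i ∈ range n, (1 - X ^ (i + 1)))

/-- `c(n)`: the coefficient of `q^n` in `C(q) = (q;q)_∞ T_o(q)`. -/
noncomputable def c (n : ℕ) : ℤ := coeff n (qq * To)

open Pool.Agent.V11306

lemma D_inv (m : ℕ) : (∏ i ∈ range m, ((1 : PowerSeries ℤ) - X ^ (2 * i + 1))) *
    invOfUnit (∏ i ∈ range m, (1 - X ^ (2 * i + 1))) 1 = 1 := by
  apply mul_invOfUnit
  rw [map_prod]
  simp

lemma coeff_summand (n m : ℕ) (h : n < 2 * m) : coeff n (summand m) = 0 := by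
  rw [summand, mul_assoc, coeff_X_pow_mul']
  rw [if_neg (by omega)]

lemma summand_eq (m : ℕ) : summand m = Co2.sm m := by
  rw [summand, Co2.sm, Co2.OI, Co1.O, Co1.EP]
  simp only [zero_add]

lemma coeff_prod (n d : ℕ) : coeff n (∏ i ∈ range (n + d), ((1 : PowerSeries ℤ) - X ^ (i + 1))) = coeff n qq := by
  induction d with
  | zero => rw [qq, coeff_mk, add_zero]
  | succ d ih =>
    rw [← ih, ← add_assoc, prod_range_succ, mul_sub, mul_one, map_sub, coeff_mul_X_pow', if_neg (by omega), sub_zero]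

lemma coeff_of_φ {N : ℕ} {f g : PowerSeries ℤ} (h : Co2.φ N f = Co2.φ N g) (n : ℕ) (hn : n < N) :
    coeff n f = coeff n g := by
  rw [Ideal.Quotient.eq, Ideal.mem_span_singleton, X_pow_dvd_iff] at h
  have := h n hn
  rwa [map_sub, sub_eq_zero] at this

lemma φ_of_coeff {N : ℕ} {f g : PowerSeries ℤ} (h : ∀ n < N, coeff n f = coeff n g) : Co2.φ N f = Co2.φ N g := by
  rw [Ideal.Quotient.eq, Ideal.mem_span_singleton, X_pow_dvd_iff]
  intro n hn
  rw [map_sub, h n hn, sub_self]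

lemma two_c (n : ℕ) : 2 * c n = coeff (n + 1) (Co2.DS (2 * (n + 2))) := by
  have h := Co2.main (N := n + 2) (K := n + 2) le_rfl
  have h1 : Co2.φ (n + 2) qq = Co2.φ (n + 2) (Co1.Q 0 (2 * (n + 2))) := by
    apply φ_of_coeff
    intro k hk
    obtain ⟨d, hd⟩ : ∃ d, 2 * (n + 2) = k + d := ⟨2 * (n + 2) - k, by omega⟩
    rw [← coeff_prod k d, ← hd, Co1.Q]
    simp only [zero_add]
  have h2 : Co2.φ (n + 2) To = Co2.φ (n + 2) (∑ k ∈ range (n + 2), Co2.sm k) := by
    apply φ_of_coeff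
    intro k hk
    rw [To, coeff_mk, map_sum]
    simp only [← summand_eq]
    apply sum_subset
    · intro i hi; rw [mem_range] at hi ⊢; omega
    · intro i _ hi
      rw [mem_range] at hi
      exact coeff_summand k i (by omega)
  have h3 : Co2.φ (n + 2) (2 * X * (qq * To)) = Co2.φ (n + 2) (Co2.DS (2 * (n + 2))) := by
    rw [← h, map_mul, map_mul (Co2.φ _) qq, h1, h2]
    simp only [map_mul]
  have h4 := coeff_of_φ h3 (n + 1) (by omega)
  rw [← h4, show (2 : PowerSeries ℤ) * X * (qq * To) = C (2 : ℤ) * (X * (qq * To)) by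
    rw [map_ofNat]; ring, coeff_C_mul, coeff_succ_X_mul, c]

lemma c_eq (n : ℕ) : c n = ∑ j ∈ range (2 * (n + 2)), ∑ u ∈ range (2 * (n + 2)),
    (if (j + u) % 2 = 1 then ((if n + 1 = j * j + Co1.tri j + Co1.tri u then 1 else 0) -
      (if n + 1 = j * j + Co1.tri j + (2 * j + 1) + Co1.tri u then 1 else 0)) else 0) := by
  have h := two_c n
  rw [Co2.DS, map_sum] at h
  have : 2 * c n = 2 * ∑ j ∈ range (2 * (n + 2)), ∑ u ∈ range (2 * (n + 2)),
    (if (j + u) % 2 = 1 then ((if n + 1 = j * j + Co1.tri j + Co1.tri u then 1 else 0) -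
      (if n + 1 = j * j + Co1.tri j + (2 * j + 1) + Co1.tri u then 1 else 0)) else 0) := by
    rw [h, mul_sum]
    apply sum_congr rfl
    intro j _
    rw [map_sum, mul_sum]
    apply sum_congr rfl
    intro u _
    rcases Nat.even_or_odd (j + u) with he | ho
    · rw [he.neg_one_pow, sub_self, zero_mul, map_zero, if_neg (by rw [Nat.even_iff] at he; omega)]
      simp
    · rw [ho.neg_one_pow, if_pos (Nat.odd_iff.mp ho), sub_neg_eq_add,
        show (1 + 1 : PowerSeries ℤ) = C (2 : ℤ) by rw [map_ofNat]; norm_num, coeff_C_mul, map_sub,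
        coeff_X_pow, coeff_X_pow]
  linarith

lemma six (f : ℕ → ℤ) (L : ℕ) : ∑ x ∈ range (6 * L), f x =
    ∑ j ∈ range L, (f (6 * j) + f (6 * j + 1) + f (6 * j + 2) + f (6 * j + 3) + f (6 * j + 4) + f (6 * j + 5)) := by
  induction L with
  | zero => simp
  | succ L ih =>
    rw [show 6 * (L + 1) = 6 * L + 1 + 1 + 1 + 1 + 1 + 1 by ring, sum_range_succ, sum_range_succ, sum_range_succ,
      sum_range_succ, sum_range_succ, sum_range_succ, ih, sum_range_succ]
    ring_nf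

lemma two (f : ℕ → ℤ) (L : ℕ) : ∑ x ∈ range (2 * L), f x = ∑ j ∈ range L, (f (2 * j) + f (2 * j + 1)) := by
  induction L with
  | zero => simp
  | succ L ih =>
    rw [show 2 * (L + 1) = 2 * L + 1 + 1 by ring, sum_range_succ, sum_range_succ, ih, sum_range_succ]
    ring_nf

lemma w_zero_x (j s y : ℕ) (h : s = 0 ∨ s = 2 ∨ s = 3 ∨ s = 4) : Ke3.w (6 * j + s) y = 0 := by
  unfold Ke3.w; split_ifs <;> omega
lemma w_zero_y (x u : ℕ) : Ke3.w x (2 * u) = 0 := by
  unfold Ke3.w; split_ifs <;> omega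
lemma w_pos (j u : ℕ) : Ke3.w (6 * j + 1) (2 * u + 1) = if (j + u) % 2 = 1 then 1 else 0 := by
  unfold Ke3.w; split_ifs <;> omega
lemma w_neg (j u : ℕ) : Ke3.w (6 * j + 5) (2 * u + 1) = if (j + u) % 2 = 1 then -1 else 0 := by
  unfold Ke3.w; split_ifs <;> omega

lemma F_eq (n L : ℕ) (hL : n + 2 ≤ L) : Ke3.F (6 * n + 7) = ∑ x ∈ range (6 * L), ∑ y ∈ range (2 * L),
    if x ^ 2 + 3 * y ^ 2 = 4 * (6 * n + 7) then Ke3.w x y else 0 := by
  have h : Ke3.Sol (6 * n + 7) = (range (6 * L) ×ˢ range (2 * L)).filter (fun p => p.1 ^ 2 + 3 * p.2 ^ 2 = 4 * (6 * n + 7)) := by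
    ext ⟨x, y⟩
    rw [Ke3.mem_Sol, mem_filter, mem_product, mem_range, mem_range]
    constructor
    · intro h
      refine ⟨⟨?_, ?_⟩, h⟩
      · simp only [] at h ⊢
        by_contra hc
        push Not at hc
        have : 6 * (n + 2) ≤ x := by omega
        nlinarith
      · simp only [] at h ⊢
        by_contra hc
        push Not at hc
        have : 2 * (n + 2) ≤ y := by omega
        nlinarith
    · exact fun h => h.2
  rw [Ke3.F, h, sum_filter, sum_product]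

lemma c_F (n : ℕ) : c n = Ke3.F (6 * n + 7) := by
  obtain ⟨L, hL⟩ : ∃ L, L = 2 * (n + 2) := ⟨_, rfl⟩
  rw [c_eq, ← hL, F_eq n L (by omega), six]
  apply sum_congr rfl
  intro j _
  have hz : ∀ s, (s = 0 ∨ s = 2 ∨ s = 3 ∨ s = 4) → ∑ y ∈ range (2 * L),
      (if (6 * j + s) ^ 2 + 3 * y ^ 2 = 4 * (6 * n + 7) then Ke3.w (6 * j + s) y else 0) = 0 := by
    intro s hs
    apply sum_eq_zero
    intro y _
    rw [w_zero_x j s y hs]
    simp
  have h0 := hz 0 (by omega)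
  rw [add_zero] at h0
  rw [h0, hz 2 (by omega), hz 3 (by omega), hz 4 (by omega), two, two]
  simp only [w_zero_y, w_pos, w_neg]
  rw [zero_add, add_zero, add_zero, add_zero, ← sum_add_distrib]
  apply sum_congr rfl
  intro u _
  have t1 := Co1.two_tri j
  have t2 := Co1.two_tri u
  have e1 : (6 * j + 1) ^ 2 + 3 * (2 * u + 1) ^ 2 = 4 * (6 * n + 7) ↔ n + 1 = j * j + Co1.tri j + Co1.tri u := by
    constructor <;> intro h <;> nlinarith
  have e2 : (6 * j + 5) ^ 2 + 3 * (2 * u + 1) ^ 2 = 4 * (6 * n + 7) ↔ n + 1 = j * j + Co1.tri j + (2 * j + 1) + Co1.tri u := by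
    constructor <;> intro h <;> nlinarith
  simp only [e1, e2]
  split_ifs <;> simp

/-- **Main result.** -/
theorem result :
    (∀ m : ℕ, (∏ i ∈ range (m + 1), ((1 : PowerSeries ℤ) - X ^ (2 * i + 1))) *
        invOfUnit (∏ i ∈ range (m + 1), (1 - X ^ (2 * i + 1))) 1 = 1) ∧
    (∀ n m : ℕ, n < m → coeff n (summand m) = 0) ∧
    (∀ n N : ℕ, n ≤ N → coeff n (∏ i ∈ range N, ((1 : PowerSeries ℤ) - X ^ (i + 1))) = coeff n qq) ∧
    (∀ M : ℤ, (∃ n : ℕ, M < c n) ∧ (∃ n : ℕ, c n < -M)) := by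
  refine ⟨fun m => D_inv (m + 1), fun n m h => coeff_summand n m (by omega), fun n N h => ?_, fun M => ?_⟩
  · obtain ⟨d, rfl⟩ := Nat.exists_eq_add_of_le h
    exact coeff_prod n d
  · obtain ⟨k, hk⟩ := Ke4.unbounded (max M 0)
    have hM : M ≤ max M 0 := le_max_left _ _
    have h0 : 0 ≤ max M 0 := le_max_right _ _
    have hk0 : k ≠ 0 := by
      rintro rfl
      rw [pow_zero, Ke3.F_one, abs_zero] at hk
      omega
    obtain ⟨k', rfl⟩ := Nat.exists_eq_succ_of_ne_zero hk0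
    have hmod : ∀ i : ℕ, 49 ^ i % 6 = 1 := by
      intro i
      rw [Nat.pow_mod]
      simp
    have hpos : 0 < 49 ^ k' := by positivity
    have hp : 49 ^ (k' + 1) = 49 * 49 ^ k' := by ring
    obtain ⟨n1, hn1⟩ : ∃ n, 49 ^ (k' + 1) = 6 * n + 7 := ⟨(49 ^ (k' + 1) - 7) / 6, by
      have := hmod (k' + 1)
      omega⟩
    obtain ⟨n2, hn2⟩ : ∃ n, 25 * 49 ^ (k' + 1) = 6 * n + 7 := ⟨(25 * 49 ^ (k' + 1) - 7) / 6, by
      have := hmod (k' + 1)
      omega⟩
    have c1 : c n1 = Ke3.F (49 ^ (k' + 1)) := by rw [c_F, hn1]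
    have c2 : c n2 = - Ke3.F (49 ^ (k' + 1)) := by rw [c_F, ← hn2, Ke3.F_five]
    rcases abs_cases (Ke3.F (49 ^ (k' + 1))) with ⟨h1, _⟩ | ⟨h1, _⟩
    · rw [Nat.succ_eq_add_one, h1] at hk
      exact ⟨⟨n1, by rw [c1]; omega⟩, ⟨n2, by rw [c2]; omega⟩⟩
    · rw [Nat.succ_eq_add_one, h1] at hk
      exact ⟨⟨n2, by rw [c2]; omega⟩, ⟨n1, by rw [c1]; omega⟩⟩

end Pool.Agent.Results.MP_91ed4c_nt.Unbounded
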